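import Pool.Agent.Y472.A.Defs2
import Pool.Agent.Y481.Defs

/-!
# Closed 3-braids without axis: the analytic part.  Definitions and statements.

`χ` is the variable of the axis.
-/

set_option autoImplicit false

namespace Pool.Agent.Y472

open Finset Filter Topology Metric
open Pool.Agent.W711.HT
open Pool.Agent.Y481 (itI wts cw)
open scoped Real

/-! ### The kernel -/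

/-- `sin(N χ / 2) / sin(χ / 2)` divided by `∏_{t ≤ d} (2 cos χ - 2 cos φ_t)` -/
noncomputable def Tg (N d : ℕ) (χ : ℂ) : ℂ :=
  (if N % 2 = 0 then 2 * Complex.cos (χ / 2) else 1) *
    ∏ t ∈ Ioc d ((N - 1) / 2), (2 * Complex.cos χ - 2 * Real.cos (2 * π * t / N))

/-- the kernel of an edge -/
noncomputable def kh (N : ℕ) (ψ ψ' χ : ℂ) : ℂ :=
  ∑ d ∈ range ((N - 1) / 2 + 1), Rp N d ψ * Rp N d ψ' * Tg N d χ / (Sd N d : ℂ) ^ 2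

/-- the kernel of the ring with `n` edges -/
noncomputable def Wk (n N : ℕ) (χ : ℂ) (ψ : ℕ → ℂ) : ℂ :=
  ∏ j ∈ range n, kh N (ψ j) (ψ ((j + 1) % n)) χ

/-- the iterated integral over the variables of the twist regions -/
noncomputable def XN (ls : List (ℤ × ℤ)) (N : ℕ) (χ : ℂ) : ℂ :=
  itI (cw ls) N (2 * ls.length) (Wk (2 * ls.length) N χ) 0

/-- the main part of `Tf`: lower indices `≤ n₀`, upper indices `≥ N - 1 - n₀`, `n₀ = (N - 1) / 2` -/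
noncomputable def Tm (N : ℕ) (ls : List (ℤ × ℤ)) (χ : ℂ) : ℂ :=
  ((ls.map fun q => Matrix.diagonal (fun i : Fin N => if N - 1 - (N - 1) / 2 ≤ (i : ℕ) then (1 : ℂ) else 0) *
    MA0 N q.1 * Matrix.diagonal (fun i : Fin N => if (i : ℕ) ≤ (N - 1) / 2 then (1 : ℂ) else 0) *
    MB0 N χ q.2).prod).trace

/-- KF: the main part in terms of the kernel -/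
def S_KF : Prop := ∀ (N : ℕ) (ls : List (ℤ × ℤ)) (χ : ℂ), 2 ≤ N → ls ≠ [] →
  Tm N ls χ = ((N : ℂ) / (2 * π)) ^ (2 * ls.length) * XN ls N χ

/-! ### Bounds -/

/-- `∫_0^δ log (|cos x - cos 2 π s| / (1 - cos 2 π s)) ds` -/
noncomputable def rh (δ x : ℝ) : ℝ :=
  ∫ s in (0:ℝ)..δ, Real.log (|Real.cos x - Real.cos (2 * π * s)| / (1 - Real.cos (2 * π * s)))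

/-- TB0: bound of the partial products -/
def S_TB0 : Prop := ∀ ε : ℝ, 0 < ε → ∃ τ : ℝ, 0 < τ ∧ ∀ᶠ N : ℕ in atTop, ∀ y x : ℕ, y ≤ x → x < N →
  ∀ u v : ℝ, |u| ≤ π → |v| ≤ τ →
  ‖∏ t ∈ Ioc y x, (2 * Complex.cos (u + v * Complex.I) - 2 * (Real.cos (2 * π * t / N) : ℂ))‖ ≤
    Sd N x ^ 2 / Sd N y ^ 2 * Real.exp (N * (rh ((x : ℝ) / N) u - rh ((y : ℝ) / N) u + ε))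

/-- RHO: the integrals -/
def S_RHO : Prop := ∃ ρs : ℝ, 0 < ρs ∧ ρs ≤ 1 ∧
  (∀ δ x : ℝ, 0 ≤ δ → δ ≤ 1 → |x| ≤ π → rh (1 - δ) x = -rh δ x) ∧
  (∀ δ x : ℝ, 0 ≤ δ → δ ≤ 1 → |x| ≤ π →
    max (bb δ 0) 0 - rh δ x / 2 ≤ bet - c1 / 2 * min |x| ρs ^ 2) ∧
  (∀ δ x : ℝ, 1 / 2 ≤ δ → δ ≤ 1 → |x| ≤ π → max (bb δ 0) 0 - rh δ x / 2 ≤ bet / 2) ∧
  (∀ δ x : ℝ, 0 ≤ δ → δ ≤ 1 → |x| ≤ π → bb δ x ≤ max (bb δ 0) 0) ∧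
  (∀ δ x x' χ : ℝ, 0 ≤ δ → δ ≤ 1 / 2 → |x| ≤ π → |x'| ≤ π → |χ| ≤ π →
    bb δ x + bb δ x' - rh δ χ ≤ 2 * bet - c1 * min |x| ρs ^ 2 - c1 * min |x'| ρs ^ 2 -
      c1 * min |χ| ρs ^ 2) ∧
  (∀ ρ : ℝ, 0 < ρ → ∃ κ : ℝ, 0 < κ ∧ ∀ δ x x' χ : ℝ, 0 ≤ δ → δ ≤ 1 / 2 → |x| ≤ π → |x'| ≤ π →
    |χ| ≤ π → ρ ≤ |δ - 1 / 4| → bb δ x + bb δ x' - rh δ χ ≤ 2 * bet - κ)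

/-- KB3: bound of the kernel, and of its terms away from `d = N / 4` -/
def S_KB3 : Prop := (∃ ρs : ℝ, 0 < ρs ∧ ρs ≤ 1 ∧ ∀ ε : ℝ, 0 < ε → ∃ τ : ℝ, 0 < τ ∧
    ∀ᶠ N : ℕ in atTop, ∀ ψ ψ' χ : ℂ, |ψ.re| ≤ π → |ψ.im| ≤ τ → |ψ'.re| ≤ π → |ψ'.im| ≤ τ →
      |χ.re| ≤ π → |χ.im| ≤ τ → ‖kh N ψ ψ' χ‖ ≤ Real.exp (N * (2 * bet - c1 * min |ψ.re| ρs ^ 2 -
        c1 * min |ψ'.re| ρs ^ 2 - c1 * min |χ.re| ρs ^ 2 + ε))) ∧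
  (∀ ρ : ℝ, 0 < ρ → ∃ κ : ℝ, 0 < κ ∧ ∃ τ : ℝ, 0 < τ ∧ ∀ᶠ N : ℕ in atTop, ∀ d ≤ (N - 1) / 2,
    ρ ≤ |(d : ℝ) / N - 1 / 4| → ∀ ψ ψ' χ : ℂ, |ψ.re| ≤ π → |ψ.im| ≤ τ → |ψ'.re| ≤ π →
      |ψ'.im| ≤ τ → |χ.re| ≤ π → |χ.im| ≤ τ →
      ‖Rp N d ψ * Rp N d ψ' * Tg N d χ / (Sd N d : ℂ) ^ 2‖ ≤ Real.exp (N * (2 * bet - κ)))

/-- FAR: bounds of the traces; `Tlo` is the part of `Tf` on the indices `< N - p`.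
(1) the rest, (2) the values `χ` away from `0`, (3) block triangular form at `χ = 2 π p / N`, and
the bounds of the blocks -/
def S_FARX : Prop := S_TB0 → S_RHO → ∀ ls : List (ℤ × ℤ), ls ≠ [] → ∃ τ : ℝ, 0 < τ ∧ ∃ ρs : ℝ,
  0 < ρs ∧ ρs ≤ 1 ∧
  (∀ᶠ N : ℕ in atTop, ∀ χ : ℂ, |χ.re| ≤ π → |χ.im| ≤ τ →
    ‖Tf N ls χ - Tm N ls χ‖ ≤ Real.exp (N * ((4 * ls.length - 1 / 2) * bet))) ∧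
  (∀ ε : ℝ, 0 < ε → ∃ τ' : ℝ, 0 < τ' ∧ ∀ᶠ N : ℕ in atTop, ∀ χ : ℂ, |χ.re| ≤ π → |χ.im| ≤ τ' →
    ‖Tf N ls χ‖ ≤ Real.exp (N * (4 * ls.length * bet - 2 * ls.length * c1 * min |χ.re| ρs ^ 2 + ε))) ∧
  (∀ᶠ N : ℕ in atTop, ∀ p < N,
    (2 * p ≤ N → ‖Thi N ls p‖ ≤ Real.exp (N * ((4 * ls.length - 1 / 2) * bet))) ∧
    (N ≤ 2 * p → ‖Tf N ls (2 * π * p / N) - Thi N ls p‖ ≤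
      Real.exp (N * ((4 * ls.length - 1 / 2) * bet))))

/-! ### The critical value of the sum over `d` -/

structure SD3 (ρ₀ c C : ℝ) (s dl : ℂ → ℂ → ℂ → ℂ) : Prop where
  hρ : 0 < ρ₀ ∧ ρ₀ ≤ 1
  hc : 0 < c
  hC : 0 < C
  san : DifferentiableOn ℂ (fun p : ℂ × ℂ × ℂ => s p.1 p.2.1 p.2.2) (Rc ρ₀ ρ₀ ×ˢ Rc ρ₀ ρ₀ ×ˢ Rc ρ₀ ρ₀)
  dan : DifferentiableOn ℂ (fun p : ℂ × ℂ × ℂ => dl p.1 p.2.1 p.2.2)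
    (Rc ρ₀ ρ₀ ×ˢ Rc ρ₀ ρ₀ ×ˢ Rc ρ₀ ρ₀)
  sbd : ∀ ψ ∈ Rc ρ₀ ρ₀, ∀ ψ' ∈ Rc ρ₀ ρ₀, ∀ χ ∈ Rc ρ₀ ρ₀, ‖s ψ ψ' χ‖ ≤ C
  sym : ∀ ψ ∈ Rc ρ₀ ρ₀, ∀ ψ' ∈ Rc ρ₀ ρ₀, ∀ χ ∈ Rc ρ₀ ρ₀, s ψ ψ' χ = s ψ' ψ χ
  dsym : ∀ ψ ∈ Rc ρ₀ ρ₀, ∀ ψ' ∈ Rc ρ₀ ρ₀, ∀ χ ∈ Rc ρ₀ ρ₀, dl ψ ψ' χ = dl ψ' ψ χ
  ev : ∀ ψ ∈ Rc ρ₀ ρ₀, ∀ ψ' ∈ Rc ρ₀ ρ₀, ∀ χ ∈ Rc ρ₀ ρ₀, s (-ψ) ψ' χ = s ψ ψ' χ
  evc : ∀ ψ ∈ Rc ρ₀ ρ₀, ∀ ψ' ∈ Rc ρ₀ ρ₀, ∀ χ ∈ Rc ρ₀ ρ₀, s ψ ψ' (-χ) = s ψ ψ' χ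
  zero : s 0 0 0 = ((2 * bet : ℝ) : ℂ)
  conc : ∀ ψ ∈ Rc ρ₀ ρ₀, ∀ ψ' ∈ Rc ρ₀ ρ₀, ∀ χ ∈ Rc ρ₀ ρ₀,
    (deriv (deriv fun z => s z ψ' χ) ψ).re ≤ -c ∧ (deriv (deriv fun z => s ψ ψ' z) χ).re ≤ -c
  dl0 : dl 0 0 0 = 1 / 4
  dclose : ∀ ψ ∈ Rc ρ₀ ρ₀, ∀ ψ' ∈ Rc ρ₀ ρ₀, ∀ χ ∈ Rc ρ₀ ρ₀, ‖dl ψ ψ' χ - 1 / 4‖ ≤ 1 / 16 ∧
    ‖dl ψ ψ' χ - 1 / 4‖ ≤ C * (‖ψ‖ ^ 2 + ‖ψ'‖ ^ 2 + ‖χ‖ ^ 2)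
  dcos : ∀ ψ ∈ Rc ρ₀ ρ₀, ∀ ψ' ∈ Rc ρ₀ ρ₀, ∀ χ ∈ Rc ρ₀ ρ₀, Complex.cos (2 * π * dl ψ ψ' χ) =
    (Complex.cos χ - Complex.cos ψ * Complex.cos ψ') /
      (1 + Complex.cos χ + Complex.cos ψ + Complex.cos ψ')
  dcrit : ∀ ψ ∈ Rc ρ₀ ρ₀, ∀ ψ' ∈ Rc ρ₀ ρ₀, ∀ χ ∈ Rc ρ₀ ρ₀,
    Complex.log (2 * Complex.cos ψ + 2 * Complex.cos (2 * π * dl ψ ψ' χ)) +
      Complex.log (2 * Complex.cos ψ' + 2 * Complex.cos (2 * π * dl ψ ψ' χ)) =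
      Complex.log (2 * Complex.cos χ - 2 * Complex.cos (2 * π * dl ψ ψ' χ)) +
      2 * Complex.log (2 * Complex.sin (π * dl ψ ψ' χ))
  scrit : ∀ ψ ∈ Rc ρ₀ ρ₀, ∀ ψ' ∈ Rc ρ₀ ρ₀, ∀ χ ∈ Rc ρ₀ ρ₀,
    s ψ ψ' χ = rrF (dl ψ ψ' χ) ψ + rrF (dl ψ ψ' χ) ψ' + rrF (1 / 2 - dl ψ ψ' χ) χ -
      2 * ssF (dl ψ ψ' χ)
  sder : ∀ ψ ∈ Rc ρ₀ ρ₀, ∀ ψ' ∈ Rc ρ₀ ρ₀, ∀ χ ∈ Rc ρ₀ ρ₀,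
    HasDerivAt (fun z => s z ψ' χ) (-(1 / (2 * π)) * Lg (2 * π * dl ψ ψ' χ) ψ) ψ
  sderc : ∀ ψ ∈ Rc ρ₀ ρ₀, ∀ ψ' ∈ Rc ρ₀ ρ₀, ∀ χ ∈ Rc ρ₀ ρ₀,
    HasDerivAt (fun z => s ψ ψ' z) (-(1 / (2 * π)) * Lg (π - 2 * π * dl ψ ψ' χ) χ) χ
  low : ∀ ψ ∈ Rc ρ₀ ρ₀, ∀ ψ' ∈ Rc ρ₀ ρ₀, ∀ χ ∈ Rc ρ₀ ρ₀,
    ‖s ψ ψ' χ - (2 * bet - (ψ ^ 2 + ψ' ^ 2 + χ ^ 2) / (4 * π))‖ ≤ C * (‖ψ‖ + ‖ψ'‖ + ‖χ‖) ^ 4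

/-- SD3 -/
def S_SD3 : Prop := ∃ (ρ₀ c C : ℝ) (s dl : ℂ → ℂ → ℂ → ℂ), SD3 ρ₀ c C s dl

/-- MWK3: asymptotics of the kernel near the origin -/
def S_MWK3 : Prop := S_KB3 → ∀ (ρ₀ c C : ℝ) (s dl : ℂ → ℂ → ℂ → ℂ), SD3 ρ₀ c C s dl →
  ∃ ρ₁ : ℝ, 0 < ρ₁ ∧ ρ₁ ≤ ρ₀ ∧ ∀ ε : ℝ, 0 < ε → ∀ᶠ N : ℕ in atTop,
    ∀ ψ ∈ Rc ρ₁ ρ₁, ∀ ψ' ∈ Rc ρ₁ ρ₁, ∀ χ ∈ Rc ρ₁ ρ₁, kh N ψ ψ' χ ≠ 0 ∧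
      |Real.log ‖kh N ψ ψ' χ‖ - N * (s ψ ψ' χ).re| ≤ ε * N

/-! ### Critical configurations -/

/-- critical configurations: `n` twist regions with the weights `a`, `m` full twists -/
def RCrit3 (s : ℂ → ℂ → ℂ → ℂ) (ρ : ℝ) (n : ℕ) (a : ℕ → ℤ) (m : ℤ) (z : ℕ → ℂ) (χ : ℂ) : Prop :=
  χ ∈ Rc ρ ρ ∧ 0 < χ.im ∧ ‖χ‖ ≤ 1 / 10 ∧
  (∀ j < n, z j ∈ Rc ρ ρ ∧ 0 < (z j).im ∧ ‖z j‖ ≤ 1 / 10 ∧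
    Complex.I * a ((j + 1) % n) * z ((j + 1) % n) / (2 * π) + Complex.I +
      deriv (fun w => s (z j) w χ) (z ((j + 1) % n)) +
      deriv (fun w => s w (z (((j + 1) % n + 1) % n)) χ) (z ((j + 1) % n)) = 0) ∧
  Complex.I * m * χ / π + Complex.I +
    ∑ j ∈ range n, deriv (fun w => s (z j) (z ((j + 1) % n)) w) χ = 0

/-- the critical value -/
noncomputable def RVal3 (s : ℂ → ℂ → ℂ → ℂ) (n : ℕ) (a : ℕ → ℤ) (m : ℤ) (z : ℕ → ℂ) (χ : ℂ) : ℂ :=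
  ∑ j ∈ range n, (Complex.I * a j * z j ^ 2 / (4 * π) + Complex.I * z j +
    s (z j) (z ((j + 1) % n)) χ) + (Complex.I * m * χ ^ 2 / (2 * π) + Complex.I * χ)

end Pool.Agent.Y472
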